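import Pool.Agent.H92.BF.Targets

/-!
# From the relation to a plane curve of bounded degree (row POL)
-/

set_option autoImplicit false

namespace Pool.Agent.H19.BF

open MvPolynomial SC Pool.Agent.H27.LV Pool.Agent.H92.BF

/-- The value of a binary form at a multiple of a point. -/
lemma hom_aeval {R A : Type} [CommRing R] [CommRing A] [Algebra R A] (P : MvPolynomial (Fin 2) R)
    (p : ℕ) (hP : P.IsHomogeneous p) (t : A) (v : Fin 2 → A) :
    aeval (fun i => t * v i) P = t ^ p * aeval v P := by
  rw [aeval_def, aeval_def, eval₂_eq', eval₂_eq', Finset.mul_sum]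
  refine Finset.sum_congr rfl fun d hd => ?_
  have h1 : d 0 + d 1 = p := by
    have h2 := hP.degree_eq_sum_deg_support hd
    have h3 : d.degree = p := h2.symm
    rw [← h3, Finsupp.degree_eq_sum, Fin.sum_univ_two]
  rw [Fin.prod_univ_two, Fin.prod_univ_two, ← h1, mul_pow, mul_pow, pow_add]
  ring

/-- The form of degree `M` belonging to the polynomial `W`. -/
noncomputable def hgz {k : Type} [Field k] (W : Polynomial k) (M : ℕ) : MvPolynomial (Fin 2) k :=
  ∑ j ∈ Finset.range (M + 1), C (W.coeff j) * X 1 ^ j * X 0 ^ (M - j)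

lemma hgz_hom {k : Type} [Field k] (W : Polynomial k) (M : ℕ) : (hgz W M).IsHomogeneous M := by
  refine IsHomogeneous.sum _ _ _ fun j hj => ?_
  have hj' : j ≤ M := by
    have := Finset.mem_range.1 hj; omega
  have h := ((isHomogeneous_C_mul_X_pow (W.coeff j) (1 : Fin 2) j).mul
    (isHomogeneous_X_pow (R := k) (0 : Fin 2) (M - j)))
  rwa [Nat.add_sub_cancel' hj'] at h

lemma hgz_aeval {k A : Type} [Field k] [CommRing A] [Algebra k A] (W : Polynomial k) (M : ℕ)
    (hW : W.natDegree ≤ M) (x : Fin 2 → A) (r : A) (hx : x 1 = r * x 0) :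
    aeval x (hgz W M) = x 0 ^ M * Polynomial.aeval r W := by
  rw [hgz, map_sum, Polynomial.aeval_eq_sum_range' (n := M + 1) (by omega), Finset.mul_sum]
  refine Finset.sum_congr rfl fun j hj => ?_
  have hj' : j ≤ M := by
    have := Finset.mem_range.1 hj; omega
  rw [map_mul, map_mul, map_pow, map_pow, aeval_X, aeval_X, aeval_C, hx, Algebra.smul_def]
  calc (algebraMap k A) (W.coeff j) * (r * x 0) ^ j * x 0 ^ (M - j) =
      (algebraMap k A) (W.coeff j) * r ^ j * (x 0 ^ j * x 0 ^ (M - j)) := by ring
    _ = x 0 ^ M * ((algebraMap k A) (W.coeff j) * r ^ j) := by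
      rw [← pow_add, Nat.add_sub_cancel' hj']; ring

theorem pf_POL : T_POL := by
  intro k K _ _ _ _ m N M F U V x c β hF hm hN hU hUM hVM hx0 hz hrel
  set z := aeval x F with hzdef
  set r := x 1 / x 0 with hr
  have hx1 : x 1 = r * x 0 := by rw [hr]; field_simp
  refine ⟨hgz U M * (1 - C β * F) ^ N - C c * hgz V M * F ^ N, ?_, ?_, ?_⟩
  · -- nonzero
    intro h0
    obtain ⟨ρ, hρ⟩ : ∃ ρ : k, Polynomial.eval ρ U ≠ 0 := by
      by_contra hcon
      push Not at hcon
      exact hU (Polynomial.funext (by simpa using hcon))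
    obtain ⟨v, hv⟩ : ∃ v : Fin 2 → Polynomial k, v = fun i =>
      (Polynomial.X : Polynomial k) * (algebraMap k (Polynomial k)) (![1, ρ] i) := ⟨_, rfl⟩
    have h1 : aeval v
        (hgz U M * (1 - C β * F) ^ N - C c * hgz V M * F ^ N) = 0 := by rw [h0, map_zero]
    have hFv : aeval v F =
        Polynomial.X ^ m * (algebraMap k (Polynomial k)) (aeval ![1, ρ] F) := by
      rw [hv, hom_aeval F m hF, ← aeval_algebraMap_apply]
      rfl
    have hv0 : v 0 = Polynomial.X := by
      rw [hv]; simp
    have hv1 : v 1 = (algebraMap k (Polynomial k)) ρ * v 0 := by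
      rw [hv0, hv]
      exact mul_comm _ _
    have hU' := hgz_aeval U M hUM v _ hv1
    have hV' := hgz_aeval V M hVM v _ hv1
    rw [hv0] at hU' hV'
    rw [map_sub, map_mul, map_mul, map_mul, map_pow, map_pow, map_sub, map_one, map_mul, aeval_C,
      aeval_C, hFv, hU', hV', Polynomial.aeval_algebraMap_apply,
      Polynomial.aeval_algebraMap_apply] at h1
    have h2 : (Polynomial.X : Polynomial k) ^ M * ((algebraMap k (Polynomial k))
        (Polynomial.aeval ρ U) * (1 - (algebraMap k (Polynomial k)) β *
        (Polynomial.X ^ m * (algebraMap k (Polynomial k)) (aeval ![1, ρ] F))) ^ N -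
        (algebraMap k (Polynomial k)) c * (algebraMap k (Polynomial k)) (Polynomial.aeval ρ V) *
        (Polynomial.X ^ m * (algebraMap k (Polynomial k)) (aeval ![1, ρ] F)) ^ N) = 0 := by
      rw [← h1]; ring
    have h3 := (mul_eq_zero.1 h2).resolve_left (pow_ne_zero _ Polynomial.X_ne_zero)
    have h4 := congrArg (Polynomial.eval 0) h3
    simp only [Polynomial.algebraMap_eq, Polynomial.eval_sub, Polynomial.eval_mul,
      Polynomial.eval_pow, Polynomial.eval_C, Polynomial.eval_one, Polynomial.eval_X,
      zero_pow (by omega : m ≠ 0), zero_mul, mul_zero, sub_zero, one_pow, mul_one,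
      zero_pow (by omega : N ≠ 0), Polynomial.eval_zero, Polynomial.coe_aeval_eq_eval] at h4
    exact hρ h4
  · -- degree
    have hFd : (1 - C β * F : MvPolynomial (Fin 2) k).totalDegree ≤ m := by
      refine (totalDegree_sub _ _).trans (max_le ?_ ?_)
      · rw [totalDegree_one]; exact Nat.zero_le _
      · refine (totalDegree_mul _ _).trans ?_
        rw [totalDegree_C, zero_add]
        exact hF.totalDegree_le
    refine (totalDegree_sub _ _).trans (max_le ?_ ?_)
    · refine (totalDegree_mul _ _).trans (add_le_add (hgz_hom U M).totalDegree_le ?_)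
      refine (totalDegree_pow _ _).trans ?_
      rw [mul_comm]
      exact Nat.mul_le_mul_right _ hFd
    · refine (totalDegree_mul _ _).trans (add_le_add ?_ ?_)
      · refine (totalDegree_mul _ _).trans ?_
        rw [totalDegree_C, zero_add]
        exact (hgz_hom V M).totalDegree_le
      · refine (totalDegree_pow _ _).trans ?_
        rw [mul_comm]
        exact Nat.mul_le_mul_right _ hF.totalDegree_le
  · -- the value
    rw [map_sub, map_mul, map_mul, map_mul, map_pow, map_pow, map_sub, map_one, map_mul, aeval_C,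
      aeval_C, hgz_aeval U M hUM x r hx1, hgz_aeval V M hVM x r hx1, ← hzdef]
    have h1 : (1 - (algebraMap k K) β * z) ^ N = z ^ N * (z⁻¹ - (algebraMap k K) β) ^ N := by
      rw [← mul_pow]
      congr 1
      field_simp
    rw [h1]
    linear_combination x 0 ^ M * z ^ N * hrel

end Pool.Agent.H19.BF
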