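import Pool.Agent.H92.BF.Targets

/-!
# The differential equation of `s = dY / dr` (row RZ)
-/

set_option autoImplicit false

namespace Pool.Agent.H19.BF

open MvPolynomial SC Pool.Agent.H27.LV Pool.Agent.H92.BF

theorem pf_RZ (hDHO : T_DHO) : T_RZ := by
  intro k K _ _ _ _ δ m d F α γ x hm hd hF hα hγ hα0 hx0 hz hdz hz1 hdr hRR s hs
  obtain ⟨m', rfl⟩ : ∃ m', m = m' + 1 := ⟨m - 1, by omega⟩
  obtain ⟨d', rfl⟩ : ∃ d', d = d' + 2 := ⟨d - 2, by omega⟩
  have hF' := (hDHO k K x (m' + 1) F hF hx0).1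
  have hα' := (hDHO k K x (d' + 2) α hα hx0).1
  have hγ' := (hDHO k K x (d' + 2 - 2) γ hγ hx0).1
  rw [Nat.add_sub_cancel] at hγ'
  set r := x 1 / x 0 with hr
  have hx1 : x 1 = r * x 0 := by rw [hr]; field_simp
  set f := Polynomial.aeval r (dh F) with hf
  set A := Polynomial.aeval r (dh α) with hA
  set G := Polynomial.aeval r (dh γ) with hG
  have hdf : δ f = Polynomial.aeval r (Polynomial.derivative (dh F)) * δ r := by
    rw [hf, Derivation.map_aeval, smul_eq_mul]
  have hdA : δ A = Polynomial.aeval r (Polynomial.derivative (dh α)) * δ r := by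
    rw [hA, Derivation.map_aeval, smul_eq_mul]
  set f1 := Polynomial.aeval r (Polynomial.derivative (dh F)) with hf1
  set A1 := Polynomial.aeval r (Polynomial.derivative (dh α)) with hA1
  have hw : wr δ x = x 0 ^ 2 * δ r := by
    rw [wr, hx1, Derivation.leibniz]
    simp only [smul_eq_mul]
    ring
  have hdw : δ (wr δ x) = 2 * x 0 * δ (x 0) * δ r + x 0 ^ 2 * δ (δ r) := by
    rw [hw, Derivation.leibniz, Derivation.leibniz_pow]
    simp only [smul_eq_mul, nsmul_eq_mul, Nat.cast_ofNat]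
    ring
  have hdα : δ (aeval x α) = ((d' : K) + 2) * x 0 ^ (d' + 1) * δ (x 0) * A +
      x 0 ^ (d' + 2) * (A1 * δ r) := by
    rw [hα', Derivation.leibniz, Derivation.leibniz_pow, hdA]
    simp only [smul_eq_mul, nsmul_eq_mul]
    push_cast
    ring
  have hdz' : δ (aeval x F) = ((m' : K) + 1) * x 0 ^ m' * δ (x 0) * f +
      x 0 ^ (m' + 1) * (f1 * δ r) := by
    rw [hF', Derivation.leibniz, Derivation.leibniz_pow, hdf]
    simp only [smul_eq_mul, nsmul_eq_mul]
    push_cast
    ring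
  set z := aeval x F with hzdef
  -- the relation from the vanishing of the operator
  have E1 : ((d' : K) + 2) * A * (2 * δ (x 0) * δ r + x 0 * δ (δ r) - x 0 * δ r) +
      2 * (m' : K) * (((d' : K) + 2) * δ (x 0) * A + x 0 * A1 * δ r) * δ r -
      ((d' : K) + 2) * x 0 * G * δ r ^ 2 = 0 := by
    have h := hRR
    rw [RR, hdw, hdα, hw, hα', hγ'] at h
    push_cast at h
    have h2 : x 0 ^ (d' + 3) * (((d' : K) + 2) * A * (2 * δ (x 0) * δ r + x 0 * δ (δ r) - x 0 * δ r) +
      2 * (m' : K) * (((d' : K) + 2) * δ (x 0) * A + x 0 * A1 * δ r) * δ r -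
      ((d' : K) + 2) * x 0 * G * δ r ^ 2) = 0 := by
      rw [← h]; ring
    exact (mul_eq_zero.1 h2).resolve_left (pow_ne_zero _ hx0)
  have E2 : x 0 * (z * f1 * δ r) = x 0 * (f * (z - 1)) - ((m' : K) + 1) * δ (x 0) * z * f := by
    have h := hdz'
    rw [hdz] at h
    have h3 : x 0 * (f * (z - 1)) = x 0 * (f * (((m' : K) + 1) * x 0 ^ m' * δ (x 0) * f +
      x 0 ^ (m' + 1) * (f1 * δ r))) := by rw [← h]
    rw [h3, hF']
    ring
  have hds : δ s = s * (z * δ r - 2 * (z - 1) * δ r - z * δ (δ r)) / (z * δ r) := by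
    have hs' : s = -(z - 1) / (z ^ 2 * δ r) := by
      rw [hs, Derivation.leibniz_inv, hdz, smul_eq_mul]
      field_simp
    have h1 : s * (z ^ 2 * δ r) = -(z - 1) := by
      rw [hs']; field_simp
    have h2 : δ (s * (z ^ 2 * δ r)) = -(z - 1) := by
      rw [h1, map_neg, map_sub, hdz]
      simp
    rw [Derivation.leibniz, Derivation.leibniz, Derivation.leibniz_pow, hdz] at h2
    simp only [smul_eq_mul, nsmul_eq_mul, Nat.cast_ofNat, Nat.add_one_sub_one, pow_one] at h2
    rw [eq_div_iff (mul_ne_zero hz hdr)]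
    have h4 : z * (δ s * (z * δ r)) = z * (s * (z * δ r - 2 * (z - 1) * δ r - z * δ (δ r))) := by
      linear_combination h2 - h1
    exact mul_left_cancel₀ hz h4
  rw [hds]
  have hTd : Polynomial.aeval r (Td (d' + 2) F α) = ((d' : K) + 2) * f * A := by
    rw [Td, map_mul, map_mul, Polynomial.aeval_C, map_natCast]
    push_cast
    rfl
  have hTn : Polynomial.aeval r (Tn (m' + 1) (d' + 2) F α γ) =
      2 * ((d' : K) + 2) * f1 * A + ((d' : K) + 2) * f * G - 2 * (m' : K) * f * A1 := by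
    rw [Tn]
    simp only [map_sub, map_add, map_mul, map_natCast, map_ofNat, map_one]
    push_cast
    simp only [← hf, ← hA, ← hG, ← hf1, ← hA1]
    ring
  rw [hTd, hTn]
  have hmul : x 0 * ((z * δ r - 2 * (z - 1) * δ r - z * δ (δ r)) * (((d' : K) + 2) * f * A) +
      (2 * ((d' : K) + 2) * f1 * A + ((d' : K) + 2) * f * G - 2 * (m' : K) * f * A1) *
        (z * δ r ^ 2)) = 0 := by
    linear_combination (-(z * f)) * E1 + 2 * ((d' : K) + 2) * A * δ r * E2
  have hmul' := (mul_eq_zero.1 hmul).resolve_left hx0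
  have hzr : z * δ r ≠ 0 := mul_ne_zero hz hdr
  rw [div_mul_eq_mul_div, div_eq_iff hzr]
  linear_combination s * hmul'

end Pool.Agent.H19.BF
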