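import Pool.Agent.H19.BF.POL

/-!
# Existence of the pair of forms (row SOL)
-/

set_option autoImplicit false

namespace Pool.Agent.H19.BF

open MvPolynomial SC Pool.Agent.H27.LV Pool.Agent.H92.BF

section

variable {k : Type} [Field k]

lemma hgz_add (W W' : Polynomial k) (M : ℕ) : hgz (W + W') M = hgz W M + hgz W' M := by
  rw [hgz, hgz, hgz, ← Finset.sum_add_distrib]
  refine Finset.sum_congr rfl fun j _ => ?_
  rw [Polynomial.coeff_add, map_add]
  ring

lemma hgz_smul (c : k) (W : Polynomial k) (M : ℕ) : hgz (c • W) M = C c * hgz W M := by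
  rw [hgz, hgz, Finset.mul_sum]
  refine Finset.sum_congr rfl fun j _ => ?_
  rw [Polynomial.coeff_smul, smul_eq_mul, map_mul]
  ring

lemma hgz_eq_zero (W : Polynomial k) (M : ℕ) (hW : W.natDegree ≤ M) (h : hgz W M = 0) : W = 0 := by
  have h1 := hgz_aeval (A := Polynomial k) W M hW ![1, Polynomial.X] Polynomial.X
    (mul_one (Polynomial.X : Polynomial k)).symm
  rw [h, map_zero, Polynomial.aeval_X_left_apply] at h1
  have h2 : (![1, Polynomial.X] : Fin 2 → Polynomial k) 0 = 1 := rfl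
  rw [h2, one_pow, one_mul] at h1
  exact h1.symm

lemma Jc_add (A B B' : MvPolynomial (Fin 2) k) : Jc A (B + B') = Jc A B + Jc A B' := by
  rw [Jc, Jc, Jc, map_add, map_add]
  ring

lemma Jc_C_mul (A B : MvPolynomial (Fin 2) k) (c : k) : Jc A (C c * B) = C c * Jc A B := by
  rw [Jc, Jc, pderiv_C_mul, pderiv_C_mul]
  ring

lemma Jc_zero (A : MvPolynomial (Fin 2) k) : Jc A 0 = 0 := by
  rw [Jc, map_zero, map_zero]
  ring

/-- the `m` linear conditions -/
noncomputable def Lam {m : ℕ} (a : Fin m → Fin 2 → k) (d : ℕ) :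
    (Polynomial.degreeLT k (d + 1) × Polynomial.degreeLT k (d - 1)) →ₗ[k] (Fin m → k) where
  toFun w i := (d : k) * eval (rt (a i)) (hgz (w.2 : Polynomial k) (d - 2)) *
    eval (rt (a i)) (Gi a i) - 2 * eval (rt (a i)) (Jc (Gi a i) (hgz (w.1 : Polynomial k) d))
  map_add' w w' := by
    funext i
    simp only [Prod.fst_add, Prod.snd_add, Submodule.coe_add, hgz_add, Jc_add, map_add,
      Pi.add_apply]
    ring
  map_smul' c w := by
    funext i
    simp only [Prod.smul_fst, Prod.smul_snd, Submodule.coe_smul, hgz_smul, Jc_C_mul, map_mul,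
      eval_C, Pi.smul_apply, smul_eq_mul, RingHom.id_apply]
    ring

lemma eval_Gi {m : ℕ} (a : Fin m → Fin 2 → k) (ha : Pw a) (i : Fin m) :
    eval (rt (a i)) (Gi a i) ≠ 0 := by
  rw [Gi, map_prod, Finset.prod_ne_zero_iff]
  intro j hj
  have hj' := ha j i (Finset.ne_of_mem_erase hj)
  have h0 : rt (a i) 0 = a i 1 := rfl
  have h1 : rt (a i) 1 = -a i 0 := rfl
  rw [lf, map_add, map_mul, map_mul, eval_C, eval_C, eval_X, eval_X, h0, h1]
  intro h
  apply hj'
  rw [← h]
  ring

end

theorem pf_SOL (hBFR : T_BFR) : T_SOL := by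
  intro k _ _ m d a ha hd hm hdm
  have hker : LinearMap.ker (Lam a d) ≠ ⊥ := by
    apply LinearMap.ker_ne_bot_of_finrank_lt
    rw [Module.finrank_prod, (Polynomial.degreeLTEquiv k (d + 1)).finrank_eq,
      (Polynomial.degreeLTEquiv k (d - 1)).finrank_eq]
    simp only [Module.finrank_fin_fun]
    omega
  obtain ⟨⟨W, U⟩, hw, hne⟩ := Submodule.exists_mem_ne_zero_of_ne_bot hker
  have hdeg : ∀ (n : ℕ) (Q : Polynomial.degreeLT k (n + 1)), (Q : Polynomial k).natDegree ≤ n := by
    intro n Q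
    have h1 := Polynomial.mem_degreeLT.1 Q.2
    by_cases h0 : (Q : Polynomial k) = 0
    · rw [h0]; simp
    · rw [Polynomial.degree_eq_natDegree h0] at h1
      have h2 : (Q : Polynomial k).natDegree < n + 1 := by exact_mod_cast h1
      omega
  have hWd : (W : Polynomial k).natDegree ≤ d := hdeg d W
  have hUd : (U : Polynomial k).natDegree ≤ d - 2 := by
    obtain ⟨e, rfl⟩ : ∃ e, d = e + 2 := ⟨d - 2, by omega⟩
    exact hdeg e U
  have hrel : ∀ i, (d : k) * eval (rt (a i)) (hgz (U : Polynomial k) (d - 2)) *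
      eval (rt (a i)) (Gi a i) = 2 * eval (rt (a i)) (Jc (Gi a i) (hgz (W : Polynomial k) d)) := by
    intro i
    have h := congrFun (LinearMap.mem_ker.1 hw) i
    exact sub_eq_zero.1 h
  refine ⟨hgz (W : Polynomial k) d, hgz (U : Polynomial k) (d - 2), hgz_hom _ _, hgz_hom _ _, ?_,
    hrel⟩
  intro h0
  have hW0 := hgz_eq_zero _ d hWd h0
  have hU : hgz (U : Polynomial k) (d - 2) = 0 := by
    apply hBFR k m (d - 2) a ha (by omega) _ (hgz_hom _ _)
    intro i
    have h := hrel i
    rw [h0, Jc_zero, map_zero, mul_zero] at h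
    have hd0 : (d : k) ≠ 0 := by
      exact_mod_cast (by omega : d ≠ 0)
    rcases mul_eq_zero.1 h with h | h
    · exact (mul_eq_zero.1 h).resolve_left hd0
    · exact absurd h (eval_Gi a ha i)
  have hU0 := hgz_eq_zero _ (d - 2) hUd hU
  apply hne
  ext1
  · exact Subtype.ext hW0
  · exact Subtype.ext hU0

end Pool.Agent.H19.BF
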